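import Pool.Agent.TH999.DCN.Final

/-! # Squarefree congruent numbers whose difference is a given congruent number

Let `δ` be a congruent number, `M ≥ 1`, and let `n₀` be such that `n₀` and `n₀ + δ` are squarefree.
Then for at least `c X ^ (1/4)` integers `n ≤ X` in the class of `n₀` modulo `M` both `n` and
`n + δ` are squarefree congruent numbers.

Proof. There are integers with `R ^ 2 - δ D ^ 2 = S ^ 2`, `R ^ 2 + δ D ^ 2 = T ^ 2`; by the
duplication map, the formula for the difference of two points and the box principle `D` can be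
taken divisible by any given number. Then `T ^ 4 - S ^ 4 = δ (2 D R) ^ 2`, so for
`τ = T + D ^ 2 R ^ 2 u` the numbers `(τ ^ 4 - T ^ 4) / (2 D R) ^ 2` and
`(τ ^ 4 - S ^ 4) / (2 D R) ^ 2` are integers with difference `δ`; both are congruent, and the first
is `T ^ 3 u` modulo `M ^ 2`. They are products of linear and quadratic polynomials in `u`, and the
squarefree sieve of helper4 (`Pool/Agent/TH4/CT/Sieve.lean`) applies. -/

set_option autoImplicit false

namespace Pool.Agent.Results.MP_05dcdc_nt.Differences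

/-- `n` is the area of a right triangle with rational sides -/
def IsCongruent (n : ℕ) : Prop :=
  ∃ a b c : ℚ, 0 < a ∧ 0 < b ∧ 0 < c ∧ a ^ 2 + b ^ 2 = c ^ 2 ∧ (n : ℚ) = a * b / 2

/-- Let `δ` be a congruent number, `M ≥ 1`, and let `n₀` and `n₀ + δ` be squarefree. There are
`c > 0` and `X₀` such that for all `X ≥ X₀` at least `c X ^ (1/4)` integers `n ≤ X` with `n ≡ n₀`
modulo `M` are such that `n` and `n + δ` are both squarefree congruent numbers. -/
theorem result (δ : ℕ) (hδ : IsCongruent δ) (M : ℕ) (hM : 0 < M) (n₀ : ℕ) (h₀ : Squarefree n₀)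
    (h₁ : Squarefree (n₀ + δ)) :
    ∃ c : ℝ, 0 < c ∧ ∃ X₀ : ℕ, ∀ X : ℕ, X₀ ≤ X →
      c * (X : ℝ) ^ (1 / 4 : ℝ) ≤ ({n : ℕ | n ≤ X ∧ n ≡ n₀ [MOD M] ∧ Squarefree n ∧
        IsCongruent n ∧ Squarefree (n + δ) ∧ IsCongruent (n + δ)}.ncard : ℝ) := by
  classical
  obtain ⟨c, hc, h⟩ := Pool.Agent.TH999.DCN.main δ hδ M hM n₀ h₀ h₁
  obtain ⟨X₀, hX₀⟩ := Filter.eventually_atTop.1 h
  refine ⟨c, hc, X₀, fun X hX => (hX₀ X hX).trans ?_⟩
  have hfin : {n : ℕ | n ≤ X ∧ n ≡ n₀ [MOD M] ∧ Squarefree n ∧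
      IsCongruent n ∧ Squarefree (n + δ) ∧ IsCongruent (n + δ)}.Finite := by
    apply (Set.finite_Iic X).subset
    intro n hn
    exact hn.1
  rw [Nat.cast_le, ← Set.ncard_coe_finset]
  apply Set.ncard_le_ncard _ hfin
  intro n hn
  obtain ⟨h1, h2⟩ := Finset.mem_filter.1 (Finset.mem_coe.1 hn)
  exact ⟨(Finset.mem_Icc.1 h1).2, h2⟩

end Pool.Agent.Results.MP_05dcdc_nt.Differences
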